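import Pool.Agent.H.MP_0ef3a5_an.C

open Filter Topology Real Finset
open Pool.Agent.H.MP_0ef3a5_an Pool.Agent.H.MP_9ac7bc_an

namespace Pool.Agent.Results.MP_0ef3a5_an.No

/-- The smallest nonzero divisor of order at most `m`. -/
noncomputable def Om (l : Fin 3 → ℂ) (m : ℕ) : ℝ :=
  sInf {x | ∃ (k : Fin 3 → ℕ) (j : Fin 3), 2 ≤ ∑ i, k i ∧ ∑ i, k i ≤ m ∧
    ∏ i, l i ^ k i ≠ l j ∧ x = ‖∏ i, l i ^ k i - l j‖}

theorem result : ∃ l : Fin 3 → ℂ, (∀ j, l j ≠ 0) ∧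
    (∀ (k : Fin 3 → ℕ) (j : Fin 3), 2 ≤ ∑ i, k i → ∏ i, l i ^ k i ≠ l j) ∧
    (∀ m, 2 ≤ m → 0 < Om l m) ∧
    Tendsto (fun N => ∑ p ∈ range N, (2 ^ p : ℝ)⁻¹ * log (1 / Om l (2 ^ (p + 1)))) atTop atTop ∧
    ∀ f : (Fin 3 → ℂ) → Fin 3 → ℂ, AnalyticAt ℂ f 0 → f 0 = 0 →
      (∃ b : Module.Basis (Fin 3) ℂ (Fin 3 → ℂ), ∀ j, fderiv ℂ f 0 (b j) = l j • b j) →
      ∃ φ : (Fin 3 → ℂ) → Fin 3 → ℂ, AnalyticAt ℂ φ 0 ∧ φ 0 = 0 ∧
        Function.Bijective (fderiv ℂ φ 0) ∧ ∀ᶠ z in 𝓝 0, f (φ z) = φ (fderiv ℂ f 0 z) := by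
  obtain ⟨ν, n1, n2, n3⟩ := nu_ex
  obtain ⟨w, w0, w1, w2⟩ := wts n1 n2
  set l : Fin 3 → ℂ := ![lam, 2⁻¹, ν / 4] with hl
  have lo : ∀ (k : Fin 3 → ℕ) j (m : ℕ), 2 ≤ ∑ i, k i → ∑ i, k i ≤ m →
      (2 ^ (m + 6 + 1) * 16)⁻¹ ≤ ‖∏ i, l i ^ k i - l j‖ := fun k j m h1 h2 => by
    rw [Fin.sum_univ_three] at h1 h2
    obtain ⟨n, hn⟩ : ∃ n, k 0 + k 1 + k 2 = n + 1 := ⟨k 0 + k 1 + k 2 - 1, by omega⟩
    rw [Fin.prod_univ_three, mul_inv]
    rcases dvs n1 _ _ _ n hn j with d | ⟨-, -, d⟩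
    · have a := lam_lo n (by omega)
      have b : (n : ℝ) ≤ 2 ^ (m + 6 + 1) := by
        exact_mod_cast (Nat.lt_two_pow_self.le.trans (Nat.pow_le_pow_right two_pos (by omega)))
      have : (2 ^ (m + 6 + 1))⁻¹ ≤ ‖lam ^ n - 1‖ := by
        rw [inv_le_iff_one_le_mul₀ (by positivity), mul_comm]
        exact a.trans (by gcongr)
      exact le_trans (by linarith) ((div_le_iff₀' (by norm_num)).2 d)
    · have := (inv_anti₀ (by positivity) (pow_le_pow_right₀ one_le_two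
        (show k 0 + 6 + 1 ≤ m + 6 + 1 by omega))).trans (n2 (k 0))
      have z : (0 : ℝ) < (2 ^ (m + 6 + 1))⁻¹ := by positivity
      exact le_trans (by linarith) ((div_le_iff₀' (by norm_num)).2 d.le)
  have nr : ∀ (k : Fin 3 → ℕ) j, 2 ≤ ∑ i, k i → ∏ i, l i ^ k i ≠ l j := fun k j h c => by
    have := lo k j _ h le_rfl
    rw [c, sub_self, norm_zero] at this
    exact this.not_gt (by positivity)
  have mem : ∀ a m, a + 2 ≤ m → ‖lam ^ a - ν‖ / 4 ∈ {x | ∃ (k : Fin 3 → ℕ) (j : Fin 3),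
      2 ≤ ∑ i, k i ∧ ∑ i, k i ≤ m ∧ ∏ i, l i ^ k i ≠ l j ∧ x = ‖∏ i, l i ^ k i - l j‖} :=
    fun a m h => ⟨![a, 2, 0], 2, by simp [Fin.sum_univ_three], by simpa [Fin.sum_univ_three],
      nr _ _ (by simp [Fin.sum_univ_three]), by
        rw [show ∏ i, l i ^ ![a, 2, 0] i - l 2 = (lam ^ a - ν) / 4 by
          simp [l, Fin.prod_univ_three]; ring]
        simp⟩
  have ps : ∀ m, 2 ≤ m → 0 < Om l m := fun m h => lt_of_lt_of_le (by positivity)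
    (le_csInf ⟨_, mem 0 m (by omega)⟩ fun x ⟨k, j, h1, h2, _, e⟩ => e ▸ lo k j m h1 h2)
  have up : ∀ a m, a + 2 ≤ m → Om l m ≤ ‖lam ^ a - ν‖ / 4 := fun a m h =>
    csInf_le ⟨0, fun x ⟨_, _, _, _, _, e⟩ => e ▸ norm_nonneg _⟩ (mem a m h)
  have t2 : ∀ p, 2 ≤ 2 ^ (p + 1) := fun p => Nat.le_self_pow p.succ_ne_zero 2
  refine ⟨l, fun j => ?_, nr, ps, (not_summable_iff_tendsto_nat_atTop_of_nonneg fun p =>
    mul_nonneg (by positivity) (log_nonneg (one_le_one_div (ps _ (t2 p)) ((up 0 _ (t2 p)).trans ?_)))).1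
      fun s => ?_, fun f fa f0 ⟨b, hb⟩ => ?_⟩
  · have : ν ≠ 0 := fun c => by simp [c] at n1
    fin_cases j <;> simp [l, this, lam]
  · have := norm_sub_le (lam ^ 0) ν
    simp only [pow_zero, norm_one, n1] at this ⊢
    linarith
  · obtain ⟨P, hP⟩ := eventually_atTop.1 (s.tendsto_atTop_zero.eventually
      (gt_mem_nhds (log_pos one_lt_two)))
    obtain ⟨a, a1, a2⟩ := n3 (2 ^ P)
    have b1 := Nat.pow_log_le_self 2 a.succ_ne_zero
    have b2 := Nat.lt_pow_succ_log_self one_lt_two (a + 1)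
    refine (hP _ (Nat.le_log_of_pow_le one_lt_two (show 2 ^ P ≤ a + 1 by omega))).not_ge ?_
    rw [le_inv_mul_iff₀ (by positivity)]
    refine le_trans ?_ (log_le_log (x := 2 ^ (a + 1)) (by positivity) ?_)
    · rw [log_pow]
      exact mul_le_mul_of_nonneg_right (by exact_mod_cast b1) (log_nonneg one_le_two)
    · rw [le_one_div (by positivity) (ps _ (t2 _)), one_div, pow_succ (2 : ℝ), mul_inv]
      linarith [up a _ b2]
  let S := b.equivFunL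
  have S0 : S.symm 0 = 0 := map_zero _
  have fd := fa.differentiableAt.hasFDerivAt
  have e : ∀ v, S (fderiv ℂ f 0 (S.symm v)) = l * v := fun v => by
    ext j
    rw [show S.symm v = ∑ i, v i • b i from b.equivFun_symm_apply v]
    simp [S, hb, Finsupp.single_apply, mul_comm]
  obtain ⟨φ, s, s0, p1, p2, p3, p4⟩ := diag (lam := l) ((pi_norm_le_iff_of_nonneg zero_le_one).2
    fun j => by fin_cases j <;> simp [l, lam_norm, n1] <;> norm_num) w0 w1 w2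
    (f := S ∘ f ∘ S.symm) ((S.analyticAt _).comp ((S0 ▸ fa).comp (S.symm.analyticAt _)))
    (by simp [f0]) fun v => by
      rw [(S.hasFDerivAt.comp 0 ((S0 ▸ fd).comp 0 S.symm.hasFDerivAt)).fderiv]
      simpa using e v
  have T0 : S 0 = 0 := map_zero _
  refine ⟨S.symm ∘ φ ∘ S, (S.symm.analyticAt _).comp ((T0 ▸ p1).comp (S.analyticAt _)),
    by simp [p2], ?_, ?_⟩
  · rw [(S.symm.hasFDerivAt.comp 0 ((T0 ▸ p3).comp 0 S.hasFDerivAt)).fderiv]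
    exact S.symm.bijective.comp ((MulAction.bijective (Units.mk0 s s0)).comp S.bijective)
  · filter_upwards [(S.continuous.tendsto' 0 0 T0).eventually p4] with z hz
    have := e (S z)
    rw [S.symm_apply_apply] at this
    simp only [Function.comp] at hz ⊢
    rw [this, ← hz, S.symm_apply_apply]

end Pool.Agent.Results.MP_0ef3a5_an.No
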